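import Pool.Agent.Helper76.FT.GoalsB

/-!
# MP_39e2b7_an, packet FT-FIN: the final step
-/

set_option autoImplicit false

namespace Pool.Agent.Helper54.FT

open Complex Set Filter Topology Pool.Agent.Helper76.FT

/-- the symmetric extension -/
noncomputable def Ext (U : ℂ → ℂ → ℂ) (F : ℝ → ℂ → ℂ) (z c : ℂ) : ℂ :=
  if 0 < c.im then U z c
  else if c.im < 0 then (starRingEnd ℂ) (U ((starRingEnd ℂ) z) ((starRingEnd ℂ) c))
  else F z.re c

theorem ext_pos (U : ℂ → ℂ → ℂ) (F : ℝ → ℂ → ℂ) (z c : ℂ) (h : 0 < c.im) :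
    Ext U F z c = U z c := by
  simp [Ext, h]

theorem ext_neg (U : ℂ → ℂ → ℂ) (F : ℝ → ℂ → ℂ) (z c : ℂ) (h : c.im < 0) :
    Ext U F z c = (starRingEnd ℂ) (U ((starRingEnd ℂ) z) ((starRingEnd ℂ) c)) := by
  have h' : ¬ 0 < c.im := not_lt.mpr h.le
  simp [Ext, h, h']

theorem ext_zero (U : ℂ → ℂ → ℂ) (F : ℝ → ℂ → ℂ) (z c : ℂ) (h : c.im = 0) :
    Ext U F z c = F z.re c := by
  simp [Ext, h]

theorem rec_rec2 {c1 c2 η : ℝ} {c : ℂ} (h : c ∈ Rec2 c1 c2 η) (hp : 0 < c.im) :
    c ∈ Rec c1 c2 η := ⟨h.1, h.2.1, hp, lt_of_le_of_lt (le_abs_self _) h.2.2⟩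

theorem rec_sub {c1 c2 η : ℝ} {c : ℂ} (h : c ∈ Rec c1 c2 η) : c ∈ Rec2 c1 c2 η :=
  ⟨h.1, h.2.1, by rw [abs_of_pos h.2.2.1]; exact h.2.2.2⟩

theorem rec2_conj {c1 c2 η : ℝ} {c : ℂ} (h : c ∈ Rec2 c1 c2 η) :
    (starRingEnd ℂ) c ∈ Rec2 c1 c2 η := by
  refine ⟨?_, ?_, ?_⟩
  · simpa using h.1
  · simpa using h.2.1
  · simpa using h.2.2

theorem isOpen_rec2 (c1 c2 η : ℝ) : IsOpen (Rec2 c1 c2 η) := by
  have h1 : IsOpen {c : ℂ | c1 < c.re} := isOpen_lt continuous_const Complex.continuous_re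
  have h2 : IsOpen {c : ℂ | c.re < c2} := isOpen_lt Complex.continuous_re continuous_const
  have h3 : IsOpen {c : ℂ | |c.im| < η} :=
    isOpen_lt (continuous_abs.comp Complex.continuous_im) continuous_const
  have : Rec2 c1 c2 η = {c : ℂ | c1 < c.re} ∩ ({c : ℂ | c.re < c2} ∩ {c : ℂ | |c.im| < η}) := by
    ext c; simp [Rec2]
  rw [this]
  exact h1.inter (h2.inter h3)

theorem ft_fin : GRefl → GTyp → GWeight → GFin := by
  intro hR hT hW U u c1 c2 η a M k hc hη ha hk H1 H2 H3 H4 H5 H6 c0 hc0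
  -- reflection for each real `x`
  have hF : ∀ x : ℝ, ∃ F : ℂ → ℂ, DifferentiableOn ℂ F (Rec2 c1 c2 η) ∧
      (∀ c ∈ Rec c1 c2 η, F c = U (x : ℂ) c) ∧
      (∀ c' ∈ Ioo c1 c2, F (c' : ℂ) = (u c' x : ℂ)) ∧
      (∀ c ∈ Rec2 c1 c2 η, F ((starRingEnd ℂ) c) = (starRingEnd ℂ) (F c)) := by
    intro x
    obtain ⟨F, hF1, hF2, hF3, hF4⟩ :=
      hR (fun c => U (x : ℂ) c) (fun c' => u c' x) c1 c2 η hc hη (H1 x) (H3 x)
    exact ⟨F, hF1, hF2, hF3, hF4⟩
  choose F hF1 hF2 hF3 hF4 using hF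
  -- the extension agrees with `F` for real `x`
  have hext : ∀ (x : ℝ), ∀ c ∈ Rec2 c1 c2 η, Ext U F (x : ℂ) c = F x c := by
    intro x c hcR
    rcases lt_trichotomy c.im 0 with h | h | h
    · rw [ext_neg _ _ _ _ h]
      have hcc : (starRingEnd ℂ) c ∈ Rec c1 c2 η := by
        apply rec_rec2 (rec2_conj hcR)
        simpa using h
      rw [Complex.conj_ofReal, ← hF2 x _ hcc, hF4 x c hcR]
      simp
    · rw [ext_zero _ _ _ _ h]; simp
    · rw [ext_pos _ _ _ _ h, hF2 x c (rec_rec2 hcR h)]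
  -- radii
  obtain ⟨R, hR0, hR1, hRa, hRb, hRc⟩ : ∃ R : ℝ, 0 < R ∧ R ≤ 1 ∧ 2 * R ≤ c0 - c1 ∧
      2 * R ≤ c2 - c0 ∧ 2 * R ≤ η := by
    refine ⟨min (min (c0 - c1) (c2 - c0)) (min η 1) / 2, ?_, ?_, ?_, ?_, ?_⟩
    · have h1 : 0 < c0 - c1 := sub_pos.mpr hc0.1
      have h2 : 0 < c2 - c0 := sub_pos.mpr hc0.2
      have : 0 < min (min (c0 - c1) (c2 - c0)) (min η 1) :=
        lt_min (lt_min h1 h2) (lt_min hη one_pos)
      linarith
    · have : min (min (c0 - c1) (c2 - c0)) (min η 1) ≤ 1 :=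
        (min_le_right _ _).trans (min_le_right _ _)
      linarith
    · have : min (min (c0 - c1) (c2 - c0)) (min η 1) ≤ c0 - c1 :=
        (min_le_left _ _).trans (min_le_left _ _)
      linarith
    · have : min (min (c0 - c1) (c2 - c0)) (min η 1) ≤ c2 - c0 :=
        (min_le_left _ _).trans (min_le_right _ _)
      linarith
    · have : min (min (c0 - c1) (c2 - c0)) (min η 1) ≤ η :=
        (min_le_right _ _).trans (min_le_left _ _)
      linarith
  have hball : ∀ c ∈ Metric.ball (c0 : ℂ) (2 * (R / 16)),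
      |c.re - c0| < R / 8 ∧ |c.im| < R / 8 := by
    intro c hcb
    rw [Metric.mem_ball, dist_eq_norm] at hcb
    have h1 := Complex.abs_re_le_norm (c - c0)
    have h2 := Complex.abs_im_le_norm (c - c0)
    simp only [Complex.sub_re, Complex.ofReal_re, Complex.sub_im, Complex.ofReal_im,
      sub_zero] at h1 h2
    constructor <;> linarith
  have hballR : ∀ c ∈ Metric.ball (c0 : ℂ) (2 * (R / 16)), c ∈ Rec2 c1 c2 η := by
    intro c hcb
    obtain ⟨h1, h2⟩ := hball c hcb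
    rw [abs_lt] at h1
    refine ⟨by linarith [h1.1], by linarith [h1.2], by linarith⟩
  -- lower bound
  obtain ⟨h1, hh1, hlow⟩ := H4 (R / 2) (by linarith)
  have hlin : ∀ (x : ℝ), ∀ c ∈ Metric.ball (c0 : ℂ) (2 * (R / 16)), 0 < c.im →
      h1 / (4 * R) * c.im ≤ (U (x : ℂ) c).im := by
    intro x c hcb hcp
    obtain ⟨hb1, hb2⟩ := hball c hcb
    rw [abs_lt] at hb1
    rw [abs_of_pos hcp] at hb2
    have hsub : Metric.ball ((c.re : ℝ) : ℂ) R ⊆ Rec2 c1 c2 η := by
      intro w hw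
      rw [Metric.mem_ball, dist_eq_norm] at hw
      have e1 := Complex.abs_re_le_norm (w - (c.re : ℂ))
      have e2 := Complex.abs_im_le_norm (w - (c.re : ℂ))
      simp only [Complex.sub_re, Complex.ofReal_re, Complex.sub_im, Complex.ofReal_im,
        sub_zero] at e1 e2
      have e3 : |w.re - c.re| < R := lt_of_le_of_lt e1 hw
      rw [abs_lt] at e3
      refine ⟨by linarith [hb1.1, e3.1], by linarith [hb1.2, e3.2], by linarith⟩
    have key := hT (F x) c.re R hR0 ((hF1 x).mono hsub) (by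
        intro x' hx'
        have hx2 : x' ∈ Ioo c1 c2 := by
          rw [abs_lt] at hx'
          exact ⟨by linarith [hx'.1, hb1.1], by linarith [hx'.2, hb1.2]⟩
        rw [hF3 x x' hx2]
        simp) (by
        intro z hz hzp
        have hzR := rec_rec2 (hsub hz) hzp
        rw [hF2 x z hzR]
        exact (H2 x z hzR).2.1) (R / 2) (by linarith) (by linarith) c.im hcp hb2.le
    have hcc : ((c.re : ℂ) + (c.im : ℂ) * I) = c := Complex.re_add_im c
    rw [hcc, hF2 x c (rec_rec2 (hballR c hcb) hcp)] at key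
    have htop : ((c.re : ℂ) + ((R / 2 : ℝ) : ℂ) * I) ∈ Rec c1 c2 η := by
      refine ⟨?_, ?_, ?_, ?_⟩
      · simp; linarith [hb1.1]
      · simp; linarith [hb1.2]
      · simp; linarith
      · simp; linarith
    rw [hF2 x _ htop] at key
    have hl := hlow _ htop (by simp) x
    refine le_trans ?_ key
    have e1 : (U (x : ℂ) ((c.re : ℂ) + ((R / 2 : ℝ) : ℂ) * I)).im * (1 - R / 2 / R) ^ 2 /
        (2 * (R / 2)) * c.im =
        (U (x : ℂ) ((c.re : ℂ) + ((R / 2 : ℝ) : ℂ) * I)).im / (4 * R) * c.im := by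
      field_simp
      ring
    rw [e1]
    gcongr
  set a1 : ℝ := min 1 (h1 / (4 * R)) with ha1
  have ha1p : 0 < a1 := lt_min one_pos (by positivity)
  have ha1le : a1 ≤ 1 := min_le_left _ _
  have hlin2 : ∀ (x : ℝ), ∀ c ∈ Metric.ball (c0 : ℂ) (2 * (R / 16)), 0 < c.im →
      a1 * c.im ≤ (U (x : ℂ) c).im := by
    intro x c hcb hcp
    refine le_trans ?_ (hlin x c hcb hcp)
    have : a1 ≤ h1 / (4 * R) := min_le_right _ _
    gcongr
  have hconjball : ∀ c ∈ Metric.ball (c0 : ℂ) (2 * (R / 16)),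
      (starRingEnd ℂ) c ∈ Metric.ball (c0 : ℂ) (2 * (R / 16)) := by
    intro c hcb
    rw [Metric.mem_ball, dist_eq_norm] at hcb ⊢
    have : (starRingEnd ℂ) c - (c0 : ℂ) = (starRingEnd ℂ) (c - (c0 : ℂ)) := by simp
    rw [this, Complex.norm_conj]
    exact hcb
  -- holomorphy in the strip
  have hstrip : ∀ c ∈ Metric.ball (c0 : ℂ) (2 * (R / 16)), 0 < c.im →
      DifferentiableOn ℂ (fun z => U z c) (Str (a * a1 ^ k * |c.im| ^ k)) ∧
      ∀ z ∈ Str (a * a1 ^ k * |c.im| ^ k), ‖U z c‖ ≤ M := by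
    intro c hcb hcp
    obtain ⟨hb1, hb2⟩ := hball c hcb
    rw [abs_of_pos hcp] at hb2
    have := H5 (a1 * c.im) (by positivity) (by nlinarith) c (rec_rec2 (hballR c hcb) hcp)
      (fun x => hlin2 x c hcb hcp)
    have e : a * a1 ^ k * |c.im| ^ k = a * (a1 * c.im) ^ k := by
      rw [abs_of_pos hcp, mul_pow]; ring
    rw [e]
    exact this
  -- joint continuity in the upper half
  have hcontU : ∀ q : ℂ × ℂ, q.2 ∈ Metric.ball (c0 : ℂ) (2 * (R / 16)) → 0 < q.2.im →
      |q.1.im| < a * a1 ^ k * |q.2.im| ^ k →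
      ContinuousAt (fun q : ℂ × ℂ => U q.1 q.2) q := by
    intro q hqb hqp hq
    obtain ⟨hb1, hb2⟩ := hball _ hqb
    rw [abs_of_pos hqp] at hb2
    have e : a * a1 ^ k * |q.2.im| ^ k = a * (a1 * q.2.im) ^ k := by
      rw [abs_of_pos hqp, mul_pow]; ring
    rw [e] at hq
    -- choose h
    have hev : ∀ᶠ h in 𝓝[<] (a1 * q.2.im), |q.1.im| < a * h ^ k ∧ 0 < h ∧ h < a1 * q.2.im := by
      have hc1 : Tendsto (fun h : ℝ => a * h ^ k) (𝓝[<] (a1 * q.2.im))
          (𝓝 (a * (a1 * q.2.im) ^ k)) := by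
        have : Continuous (fun h : ℝ => a * h ^ k) := by fun_prop
        exact (this.tendsto _).mono_left nhdsWithin_le_nhds
      have hc2 : ∀ᶠ h in 𝓝[<] (a1 * q.2.im), 0 < h :=
        mem_nhdsWithin_of_mem_nhds (lt_mem_nhds (by positivity))
      have hc3 : ∀ᶠ h in 𝓝[<] (a1 * q.2.im), h < a1 * q.2.im := self_mem_nhdsWithin
      exact ((hc1.eventually (lt_mem_nhds hq)).and (hc2.and hc3))
    obtain ⟨h, hh2, hh0, hh3⟩ := hev.exists
    have hle : h ≤ 1 := by nlinarith
    have hS := H6 h hh0 hle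
    have hmem : {q' : ℂ × ℂ | q'.2 ∈ Rec c1 c2 η ∧ (∀ x : ℝ, h ≤ (U (x : ℂ) q'.2).im) ∧
        |q'.1.im| < a * h ^ k} ∈ 𝓝 q := by
      have e1 : ∀ᶠ q' : ℂ × ℂ in 𝓝 q, q'.2 ∈ Metric.ball (c0 : ℂ) (2 * (R / 16)) :=
        continuous_snd.continuousAt.eventually (Metric.isOpen_ball.mem_nhds hqb)
      have e2 : ∀ᶠ q' : ℂ × ℂ in 𝓝 q, 0 < q'.2.im :=
        (Complex.continuous_im.comp continuous_snd).continuousAt.eventually (lt_mem_nhds hqp)
      have e3 : ∀ᶠ q' : ℂ × ℂ in 𝓝 q, h < a1 * q'.2.im :=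
        (continuous_const.mul (Complex.continuous_im.comp continuous_snd)).continuousAt.eventually
          (lt_mem_nhds hh3)
      have e4 : ∀ᶠ q' : ℂ × ℂ in 𝓝 q, |q'.1.im| < a * h ^ k :=
        (continuous_abs.comp (Complex.continuous_im.comp continuous_fst)).continuousAt.eventually
          (gt_mem_nhds hh2)
      filter_upwards [e1, e2, e3, e4] with q' f1 f2 f3 f4
      exact ⟨rec_rec2 (hballR _ f1) f2, fun x => f3.le.trans (hlin2 x _ f1 f2), f4⟩
    exact hS.continuousAt hmem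
  -- apply the weighted Cauchy lemma
  have hmain := hW (Ext U F) c0 (R / 16) (a * a1 ^ k) M k (by positivity) (by positivity) hk
    ?_ ?_ ?_ ?_
  · have hre : AnalyticOnNhd ℝ (fun x : ℝ => Complex.reCLM (Ext U F (x : ℂ) (c0 : ℂ))) univ :=
      fun x hx => (Complex.reCLM.analyticAt _).comp (hmain x hx)
    have he : (fun x : ℝ => Complex.reCLM (Ext U F (x : ℂ) (c0 : ℂ))) = u c0 := by
      funext x
      rw [ext_zero _ _ _ _ (Complex.ofReal_im c0), Complex.ofReal_re, hF3 x c0 hc0]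
      simp
    rwa [he] at hre
  · -- holomorphic in c
    intro x
    exact ((hF1 x).mono hballR).congr (fun c hcb => hext x c (hballR c hcb))
  · -- bounded
    intro x c hcb
    have hb : ∀ c ∈ Metric.ball (c0 : ℂ) (2 * (R / 16)), c.im ≠ 0 → ‖F x c‖ ≤ M := by
      intro c hcb hcn
      rcases lt_or_gt_of_ne hcn with h | h
      · have hcc : (starRingEnd ℂ) c ∈ Rec c1 c2 η := by
          apply rec_rec2 (rec2_conj (hballR c hcb))
          simpa using h
        have e := hF4 x _ (hballR c hcb)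
        have e2 : ‖F x c‖ = ‖F x ((starRingEnd ℂ) c)‖ := by rw [e, Complex.norm_conj]
        rw [e2, hF2 x _ hcc]
        exact (H2 x _ hcc).1
      · rw [hF2 x _ (rec_rec2 (hballR c hcb) h)]
        exact (H2 x _ (rec_rec2 (hballR c hcb) h)).1
    rw [hext x c (hballR c hcb)]
    by_cases hcn : c.im = 0
    · -- limit
      have hcontF : ContinuousAt (F x) c :=
        ((hF1 x).continuousOn).continuousAt ((isOpen_rec2 c1 c2 η).mem_nhds (hballR c hcb))
      have ht : Tendsto (fun t : ℝ => c + (t : ℂ) * I) (𝓝[>] (0:ℝ)) (𝓝 c) := by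
        have : Continuous (fun t : ℝ => c + (t : ℂ) * I) := by fun_prop
        have h0 := this.tendsto 0
        simp only [Complex.ofReal_zero, zero_mul, add_zero] at h0
        exact h0.mono_left nhdsWithin_le_nhds
      have hlim : Tendsto (fun t : ℝ => ‖F x (c + (t : ℂ) * I)‖) (𝓝[>] (0:ℝ)) (𝓝 ‖F x c‖) :=
        (hcontF.tendsto.comp ht).norm
      refine le_of_tendsto hlim ?_
      have ev1 : ∀ᶠ t : ℝ in 𝓝[>] (0:ℝ), c + (t : ℂ) * I ∈ Metric.ball (c0 : ℂ) (2 * (R / 16)) :=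
        ht.eventually (Metric.isOpen_ball.mem_nhds hcb)
      have ev2 : ∀ᶠ t : ℝ in 𝓝[>] (0:ℝ), 0 < t := self_mem_nhdsWithin
      filter_upwards [ev1, ev2] with t f1 f2
      apply hb _ f1
      have e : (c + (t : ℂ) * I).im = t := by simp [hcn]
      rw [e]
      exact ne_of_gt f2
    · exact hb c hcb hcn
  · -- holomorphic in z
    intro c hcb hcn
    rcases lt_or_gt_of_ne hcn with h | h
    · obtain ⟨g1, g2⟩ := hstrip _ (hconjball c hcb) (by simpa using h)
      have him : |((starRingEnd ℂ) c).im| = |c.im| := by simp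
      rw [him] at g1 g2
      have hopen : IsOpen (Str (a * a1 ^ k * |c.im| ^ k)) :=
        isOpen_lt (continuous_abs.comp Complex.continuous_im) continuous_const
      have hsym : ∀ z ∈ Str (a * a1 ^ k * |c.im| ^ k),
          (starRingEnd ℂ) z ∈ Str (a * a1 ^ k * |c.im| ^ k) := by
        intro z hz
        simp only [Str, Set.mem_ofPred_eq] at hz ⊢
        simpa using hz
      constructor
      · intro z hz
        have hd : DifferentiableAt ℂ (fun z => U z ((starRingEnd ℂ) c)) ((starRingEnd ℂ) z) :=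
          (g1 _ (hsym z hz)).differentiableAt (hopen.mem_nhds (hsym z hz))
        have hd2 : DifferentiableAt ℂ
            (fun w => (starRingEnd ℂ) ((fun z => U z ((starRingEnd ℂ) c)) ((starRingEnd ℂ) w))) z := by
          have := hd.hasDerivAt.conj_conj
          simp only [Complex.conj_conj] at this
          exact this.differentiableAt
        refine hd2.differentiableWithinAt.congr ?_ ?_
        · intro w _; exact ext_neg _ _ _ _ h
        · exact ext_neg _ _ _ _ h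
      · intro z hz
        rw [ext_neg _ _ _ _ h, Complex.norm_conj]
        exact g2 _ (hsym z hz)
    · obtain ⟨g1, g2⟩ := hstrip c hcb h
      constructor
      · exact g1.congr (fun z _ => ext_pos _ _ _ _ h)
      · intro z hz
        rw [ext_pos _ _ _ _ h]
        exact g2 z hz
  · -- joint continuity
    rintro q ⟨hqb, hqn, hq⟩
    apply ContinuousAt.continuousWithinAt
    rcases lt_or_gt_of_ne hqn with h | h
    · have hc1 := hcontU ((starRingEnd ℂ) q.1, (starRingEnd ℂ) q.2) (hconjball _ hqb)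
        (by simpa using h) (by simpa using hq)
      have hc2 : ContinuousAt (fun q : ℂ × ℂ =>
          (starRingEnd ℂ) (U ((starRingEnd ℂ) q.1) ((starRingEnd ℂ) q.2))) q := by
        have hg : Continuous (fun q : ℂ × ℂ => (((starRingEnd ℂ) q.1, (starRingEnd ℂ) q.2) : ℂ × ℂ)) :=
          (Complex.continuous_conj.comp continuous_fst).prodMk
            (Complex.continuous_conj.comp continuous_snd)
        have hc3 : ContinuousAt ((fun q : ℂ × ℂ => U q.1 q.2) ∘
            (fun q : ℂ × ℂ => (((starRingEnd ℂ) q.1, (starRingEnd ℂ) q.2) : ℂ × ℂ))) q :=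
          ContinuousAt.comp hc1 hg.continuousAt
        exact Complex.continuous_conj.continuousAt.comp hc3
      refine hc2.congr ?_
      have : ∀ᶠ q' : ℂ × ℂ in 𝓝 q, q'.2.im < 0 :=
        (Complex.continuous_im.comp continuous_snd).continuousAt.eventually (gt_mem_nhds h)
      filter_upwards [this] with q' hq'
      exact (ext_neg _ _ _ _ hq').symm
    · refine (hcontU q hqb h hq).congr ?_
      have : ∀ᶠ q' : ℂ × ℂ in 𝓝 q, 0 < q'.2.im :=
        (Complex.continuous_im.comp continuous_snd).continuousAt.eventually (lt_mem_nhds h)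
      filter_upwards [this] with q' hq'
      exact (ext_pos _ _ _ _ hq').symm

end Pool.Agent.Helper54.FT
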